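import Pool.Agent.Q57.PH.Tor

/-!
# The dichotomy for a point of a homogeneous set
-/

set_option autoImplicit false

open MvPolynomial Algebra Filter Topology

universe v

namespace Pool.Agent.Q57.PH

variable {K σ L : Type v} [Field K] [Fintype σ] [Field L] [Algebra K L] {T : Set (σ → K)}

theorem exists_comp (β : σ → L) (hβ : vI T ≤ RingHom.ker (aeval (R := K) β)) :
    ∃ Q ∈ comps T, Q ≤ RingHom.ker (aeval (R := K) β) := by
  have hk : (RingHom.ker (aeval (R := K) β)).IsPrime := RingHom.ker_isPrime _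
  obtain ⟨Q, hQ, hle⟩ := Ideal.exists_minimalPrimes_le hβ
  exact ⟨Q, (mem_comps T).2 hQ, hle⟩

theorem dense_case (hT : Homog T) (β : σ → L) (hβ : vI T ≤ RingHom.ker (aeval (R := K) β))
    (h : trdeg K (IntermediateField.adjoin K (Set.range β)) = trdeg K (MvPolynomial σ K ⧸ vI T)) :
    Tendsto (fun n => (hf K β n : ℝ) / hf K (xT T) n) atTop (𝓝 (1 / (comps T).card)) := by
  obtain ⟨Q, hQ, hle⟩ := exists_comp β hβ
  have hker := (trdeg_point_lt hT hQ β hle).1 h
  have h1 : ∀ n, hf K β n = _root_.Pool.Agent.Q57.PH.hQ Q n := by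
    intro n
    refine hf_eq_of_ker _ _ (fun p => ?_) n
    rw [aeval_mk_eq_zero, ← hker, RingHom.mem_ker]
  simp only [h1]
  exact limit_generic hT hQ

theorem sparse_case (hT : Homog T) (β : σ → L) (hβ : vI T ≤ RingHom.ker (aeval (R := K) β))
    (h : trdeg K (IntermediateField.adjoin K (Set.range β)) ≠ trdeg K (MvPolynomial σ K ⧸ vI T)) :
    ∃ C : ℝ, 0 ≤ C ∧ ∀ n : ℕ, 1 ≤ n → (hf K β n : ℝ) ≤ C / n * hf K (xT T) n := by
  obtain ⟨Q, hQ, hle⟩ := exists_comp β hβ
  have hker : RingHom.ker (aeval (R := K) β) ≠ Q := fun h' => h ((trdeg_point_lt hT hQ β hle).2 h')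
  have h1 : ∃ a, a ∈ RingHom.ker (aeval (R := K) β) ∧ a ∉ Q := by
    by_contra hcon
    push Not at hcon
    exact hker (le_antisymm hcon hle)
  obtain ⟨a, ha, ha'⟩ := h1
  exact rate_special hQ (fun p hp => hle hp) a ha' ha

theorem hf_xT_pos (hT : T.Nonempty) (n : ℕ) : 0 < hf K (xT T) n := by
  have : Nonempty T := hT.to_subtype
  exact hf_pos K _ n

/-- the strong form is the case of one component -/
theorem strong_iff (hT : Homog T) (β : σ → L) (hβ : vI T ≤ RingHom.ker (aeval (R := K) β)) :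
    RingHom.ker (aeval (R := K) β) = vI T ↔
      (trdeg K (IntermediateField.adjoin K (Set.range β)) = trdeg K (MvPolynomial σ K ⧸ vI T) ∧
        (comps T).card = 1) := by
  constructor
  · intro h
    refine ⟨by rw [trdeg_field, h], ?_⟩
    have hk : (vI T).IsPrime := by
      rw [← h]
      exact RingHom.ker_isPrime _
    have h1 : comps T = {vI T} := by
      ext Q
      rw [mem_comps, Finset.mem_singleton]
      have := Ideal.minimalPrimes_eq_subsingleton_self (I := vI T)
      have h2 : (vI T).IsMinimalPrime Q ↔ Q ∈ (vI T).minimalPrimes := Iff.rfl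
      rw [h2, this]
      rfl
    rw [h1, Finset.card_singleton]
  · rintro ⟨h1, h2⟩
    obtain ⟨Q, hQ, hle⟩ := exists_comp β hβ
    rw [(trdeg_point_lt hT hQ β hle).1 h1]
    obtain ⟨Q', hQ'⟩ := Finset.card_eq_one.1 h2
    have h3 := inf_comps T
    rw [hQ', Finset.mem_singleton] at hQ
    rw [hQ', Finset.inf_singleton] at h3
    rw [hQ, ← h3]
    rfl

end Pool.Agent.Q57.PH
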