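import Pool.Agent.Q57.PH.Rate

/-!
# Polynomial functions on a set of points and the components of its Zariski closure
-/

set_option autoImplicit false

open MvPolynomial Filter Topology

namespace Pool.Agent.Q57.PH

variable {K σ : Type*} [Field K]

/-- the coordinate functions on a set of points -/
def xT (T : Set (σ → K)) (i : σ) : T → K := fun t => t.1 i

theorem aeval_xT (T : Set (σ → K)) (p : MvPolynomial σ K) (t : T) : aeval (xT T) p t = eval t.1 p := by
  have h := comp_aeval_apply (xT T) (Pi.evalAlgHom K (fun _ : T => K) t) p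
  rw [Pi.evalAlgHom_apply] at h
  rw [h]
  rfl

/-- the vanishing ideal -/
noncomputable def vI (T : Set (σ → K)) : Ideal (MvPolynomial σ K) := RingHom.ker (aeval (R := K) (xT T))

theorem mem_vI (T : Set (σ → K)) (p : MvPolynomial σ K) : p ∈ vI T ↔ ∀ t ∈ T, eval t p = 0 := by
  rw [vI, RingHom.mem_ker]
  constructor
  · intro h t ht
    rw [← aeval_xT T p ⟨t, ht⟩, h]
    rfl
  · intro h
    funext t
    rw [aeval_xT]
    exact h t.1 t.2

theorem vI_radical (T : Set (σ → K)) : (vI T).radical = vI T := by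
  refine le_antisymm ?_ Ideal.le_radical
  rintro p ⟨n, hn⟩
  rw [mem_vI] at hn ⊢
  intro t ht
  have := hn t ht
  rw [map_pow] at this
  exact eq_zero_of_pow_eq_zero this

section Finite

variable [Finite σ] (T : Set (σ → K))

theorem fin_min : (vI T).minimalPrimes.Finite := Ideal.finite_minimalPrimes_of_isNoetherianRing _ _

/-- the finite set of the minimal primes -/
noncomputable def comps : Finset (Ideal (MvPolynomial σ K)) := (fin_min T).toFinset

theorem mem_comps {Q : Ideal (MvPolynomial σ K)} : Q ∈ comps T ↔ (vI T).IsMinimalPrime Q := by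
  rw [comps, Set.Finite.mem_toFinset]
  rfl

theorem inf_comps : (comps T).inf id = vI T := by
  rw [← vI_radical T, ← Ideal.sInf_minimalPrimes, Finset.inf_id_eq_sInf, comps, Set.Finite.coe_toFinset]

theorem mem_vI_iff {p : MvPolynomial σ K} : p ∈ vI T ↔ ∀ Q ∈ comps T, p ∈ Q := by
  rw [← inf_comps T]
  constructor
  · intro h Q hQ
    exact (Finset.inf_le hQ : (comps T).inf id ≤ Q) h
  · intro h
    rw [Finset.inf_id_eq_sInf, Submodule.mem_sInf]
    exact fun Q hQ => h Q hQ

/-- an element of all minimal primes but one -/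
theorem exists_sep (Q : Ideal (MvPolynomial σ K)) (hQ : Q ∈ comps T) :
    ∃ a : MvPolynomial σ K, a ∉ Q ∧ ∀ Q' ∈ comps T, Q' ≠ Q → a ∈ Q' := by
  classical
  by_contra hcon
  push Not at hcon
  have h1 : ((comps T).erase Q).inf id ≤ Q := by
    intro a ha
    by_contra haQ
    obtain ⟨Q', hQ', hne, ha'⟩ := hcon a haQ
    exact ha' ((Finset.inf_le (Finset.mem_erase.2 ⟨hne, hQ'⟩) : ((comps T).erase Q).inf id ≤ Q') ha)
  have hQp := ((mem_comps T).1 hQ).isPrime
  obtain ⟨Q', hQ', hle⟩ := hQp.inf_le'.1 h1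
  obtain ⟨hne, hQ''⟩ := Finset.mem_erase.1 hQ'
  have h2 := ((mem_comps T).1 hQ)
  have h3 := ((mem_comps T).1 hQ'')
  exact hne (le_antisymm hle (h2.2 ⟨h3.isPrime, h3.le⟩ hle))

/-- a point which lies on exactly one component -/
theorem exists_point (Q : Ideal (MvPolynomial σ K)) (hQ : Q ∈ comps T) :
    ∃ t ∈ T, ∀ Q' ∈ comps T, (∀ p ∈ Q', eval t p = 0) ↔ Q' = Q := by
  obtain ⟨a, haQ, ha⟩ := exists_sep T Q hQ
  have h1 : a ∉ vI T := fun h => haQ (((mem_comps T).1 hQ).le h)
  rw [mem_vI] at h1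
  push Not at h1
  obtain ⟨t, ht, hat⟩ := h1
  -- the point lies on some component
  have h2 : ∃ Q' ∈ comps T, ∀ p ∈ Q', eval t p = 0 := by
    let m : Ideal (MvPolynomial σ K) := RingHom.ker (eval t)
    have hm : m.IsPrime := RingHom.ker_isPrime _
    have h3 : vI T ≤ m := fun p hp => (mem_vI T p).1 hp t ht
    obtain ⟨Q', hQ', hle⟩ := Ideal.exists_minimalPrimes_le h3
    exact ⟨Q', (mem_comps T).2 hQ', fun p hp => hle hp⟩
  have h4 : ∀ Q' ∈ comps T, (∀ p ∈ Q', eval t p = 0) → Q' = Q := by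
    intro Q' hQ' hv
    by_contra hne
    exact hat (hv a (ha Q' hQ' hne))
  refine ⟨t, ht, fun Q' hQ' => ⟨h4 Q' hQ', ?_⟩⟩
  rintro rfl
  obtain ⟨Q'', hQ'', hv⟩ := h2
  rwa [h4 Q'' hQ'' hv] at hv

/-- the space of the polynomials of degree at most `n` modulo an ideal -/
noncomputable def vQ (Q : Ideal (MvPolynomial σ K)) (n : ℕ) : Submodule K (MvPolynomial σ K ⧸ Q) :=
  vals K (fun i => Ideal.Quotient.mk Q (X i)) n

noncomputable instance (Q : Ideal (MvPolynomial σ K)) (n : ℕ) : AddCommGroup (vQ Q n) :=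
  Submodule.addCommGroup _

instance (Q : Ideal (MvPolynomial σ K)) (n : ℕ) : Module.Free K (vQ Q n) := Module.Free.of_divisionRing K _

instance (Q : Ideal (MvPolynomial σ K)) (n : ℕ) : Module.Finite K (vQ Q n) := by
  unfold vQ
  infer_instance

/-- the growth function of a quotient -/
noncomputable def hQ (Q : Ideal (MvPolynomial σ K)) (n : ℕ) : ℕ :=
  hf K (fun i => Ideal.Quotient.mk Q (X i)) n

theorem aeval_mk (Q : Ideal (MvPolynomial σ K)) (p : MvPolynomial σ K) :
    aeval (fun i => Ideal.Quotient.mk Q (X i)) p = Ideal.Quotient.mk Q p := by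
  have h := comp_aeval_apply (X : σ → MvPolynomial σ K) (Ideal.Quotient.mkₐ K Q) p
  rw [aeval_X_left_apply] at h
  exact h.symm

theorem aeval_mk_eq_zero (Q : Ideal (MvPolynomial σ K)) (p : MvPolynomial σ K) :
    aeval (fun i => Ideal.Quotient.mk Q (X i)) p = 0 ↔ p ∈ Q := by
  rw [aeval_mk, Ideal.Quotient.eq_zero_iff_mem]

/-- the total growth is at most the sum of the growths of the components -/
theorem upper (n : ℕ) : hf K (xT T) n ≤ ∑ Q ∈ comps T, hQ Q n := by
  classical
  let z : σ → ((Q : comps T) → MvPolynomial σ K ⧸ Q.1) := fun i Q => Ideal.Quotient.mk Q.1 (X i)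
  have hz : ∀ (p : MvPolynomial σ K) (Q : comps T), aeval z p Q = Ideal.Quotient.mk Q.1 p := by
    intro p Q
    have h := comp_aeval_apply z (Pi.evalAlgHom K (fun Q : comps T => MvPolynomial σ K ⧸ Q.1) Q) p
    rw [Pi.evalAlgHom_apply] at h
    rw [h, ← aeval_mk]
    rfl
  have h1 : hf K (xT T) n = hf K z n := by
    refine (hf_eq_of_ker (xT T) z (fun p => ?_) n).symm
    have e1 : aeval (xT T) p = 0 ↔ p ∈ vI T := by rw [vI, RingHom.mem_ker]
    rw [e1, mem_vI_iff]
    constructor
    · intro h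
      funext Q
      rw [hz]
      exact Ideal.Quotient.eq_zero_iff_mem.2 (h Q.1 Q.2)
    · intro h Q hQ
      have := congrFun h ⟨Q, hQ⟩
      rw [hz] at this
      exact Ideal.Quotient.eq_zero_iff_mem.1 this
  rw [h1]
  let f : vals K z n →ₗ[K] ((Q : comps T) → vQ Q.1 n) :=
    LinearMap.pi fun Q => LinearMap.codRestrict _ ((LinearMap.proj Q).comp (vals K z n).subtype) (by
      rintro ⟨c, hc⟩
      obtain ⟨p, hp, rfl⟩ := (mem_vals K).1 hc
      refine (mem_vals K).2 ⟨p, hp, ?_⟩
      rw [aeval_mk]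
      exact (hz p Q).symm)
  have hfi : Function.Injective f := by
    intro c d hcd
    apply Subtype.ext
    funext Q
    have := congrArg (fun (w : (Q : comps T) → vals K (fun i => Ideal.Quotient.mk Q.1 (X i)) n) =>
      ((w Q : vQ Q.1 n) : MvPolynomial σ K ⧸ Q.1)) hcd
    exact this
  have h2 := LinearMap.finrank_le_finrank_of_injective hfi
  rw [Module.finrank_pi_fintype] at h2
  refine h2.trans (le_of_eq ?_)
  exact Finset.sum_coe_sort (comps T) (fun Q => hQ Q n)

/-- the sum of the growths of the components is at most the total growth, up to a shift -/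
theorem lower : ∃ e : ℕ, ∀ n, ∑ Q ∈ comps T, hQ Q n ≤ hf K (xT T) (n + e) := by
  classical
  choose! a ha1 ha2 using exists_sep T
  set e := (comps T).sup (fun Q => (a Q).totalDegree) with he
  refine ⟨e, fun n => ?_⟩
  let R := restrictTotalDegree σ K n
  let Θ : (comps T → R) →ₗ[K] (T → K) :=
    ∑ Q : comps T, ((aeval (R := K) (xT T)).toLinearMap.comp ((LinearMap.mulLeft K (a Q.1)).comp
      (R.subtype.comp (LinearMap.proj Q))))
  have hΘ : ∀ p : comps T → R, Θ p = aeval (xT T) (∑ Q : comps T, a Q.1 * (p Q).1) := by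
    intro p
    rw [map_sum]
    simp only [Θ, LinearMap.sum_apply, LinearMap.comp_apply, LinearMap.proj_apply, Submodule.subtype_apply,
      LinearMap.mulLeft_apply, AlgHom.toLinearMap_apply]
  let Φ : (comps T → R) →ₗ[K] ((Q : comps T) → vQ Q.1 n) :=
    LinearMap.pi fun Q => LinearMap.codRestrict _ ((Ideal.Quotient.mkₐ K Q.1).toLinearMap.comp
      (R.subtype.comp (LinearMap.proj Q))) (by
      intro p
      refine (mem_vals K).2 ⟨(p Q).1, (mem_restrictTotalDegree σ n _).1 (p Q).2, ?_⟩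
      rw [aeval_mk]
      rfl)
  have hΦ : Function.Surjective Φ := by
    intro w
    have h1 : ∀ Q : comps T, ∃ p : R, Ideal.Quotient.mk Q.1 p.1 = (w Q).1 := by
      intro Q
      obtain ⟨p, hp, h⟩ := (mem_vals K).1 (w Q).2
      rw [aeval_mk] at h
      exact ⟨⟨p, (mem_restrictTotalDegree σ n _).2 hp⟩, h⟩
    choose p hp using h1
    refine ⟨p, ?_⟩
    funext Q
    exact Subtype.ext (hp Q)
  have hker : LinearMap.ker Θ ≤ LinearMap.ker Φ := by
    intro p hp
    rw [LinearMap.mem_ker, hΘ] at hp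
    have h1 : (∑ Q : comps T, a Q.1 * (p Q).1) ∈ vI T := by rw [vI, RingHom.mem_ker, hp]
    rw [LinearMap.mem_ker]
    funext Q
    apply Subtype.ext
    change Ideal.Quotient.mk Q.1 (p Q).1 = 0
    rw [Ideal.Quotient.eq_zero_iff_mem]
    have h2 := (mem_vI_iff T).1 h1 Q.1 Q.2
    rw [← Finset.add_sum_erase _ _ (Finset.mem_univ Q)] at h2
    have h3 : ∑ Q' ∈ Finset.univ.erase Q, a Q'.1 * (p Q').1 ∈ Q.1 := by
      refine Ideal.sum_mem _ fun Q' hQ' => Ideal.mul_mem_right _ _ (ha2 Q'.1 Q'.2 Q.1 Q.2 ?_)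
      intro h
      exact (Finset.mem_erase.1 hQ').1 (Subtype.ext h.symm)
    have h4 := (Ideal.add_mem_iff_left _ h3).1 h2
    exact (((mem_comps T).1 Q.2).isPrime.mem_or_mem h4).resolve_left (ha1 Q.1 Q.2)
  have h1 := LinearMap.finrank_range_add_finrank_ker Θ
  have h2 := LinearMap.finrank_range_add_finrank_ker Φ
  have h3 := Submodule.finrank_mono hker
  rw [LinearMap.range_eq_top.2 hΦ, finrank_top, Module.finrank_pi_fintype] at h2
  have h4 : Module.finrank K (LinearMap.range Θ) ≤ hf K (xT T) (n + e) := by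
    refine Submodule.finrank_mono ?_
    rintro _ ⟨p, rfl⟩
    rw [hΘ]
    refine (mem_vals K).2 ⟨_, ?_, rfl⟩
    refine totalDegree_finsetSum_le fun Q _ => ?_
    refine (totalDegree_mul _ _).trans ?_
    have h5 := (mem_restrictTotalDegree σ n _).1 (p Q).2
    have h6 : (a Q.1).totalDegree ≤ e := Finset.le_sup (f := fun Q => (a Q).totalDegree) Q.2
    omega
  have h5 : ∑ Q ∈ comps T, hQ Q n =
      ∑ Q : comps T, Module.finrank K (vQ Q.1 n) :=
    (Finset.sum_coe_sort (comps T) (fun Q => hQ Q n)).symm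
  omega

end Finite

end Pool.Agent.Q57.PH
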