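import Pool.Agent.Q57.PH.Vals

/-!
# Comparison of growth functions
-/

set_option autoImplicit false

open MvPolynomial Filter Topology

namespace Pool.Agent.Q57.PH

theorem diff_le (h : ℕ → ℕ) (m : ℕ) (hg : ∀ n, (n + 1) * h (n + 1) ≤ (n + 1 + m) * h n) (hm : Monotone h)
    (n e : ℕ) (he : e ≤ n) :
    ((n : ℝ) - e + 1) * ((h n : ℝ) - h (n - e)) ≤ e * m * h n := by
  induction e with
  | zero => simp
  | succ e ih =>
    have h1 := ih (by omega)
    have h2 : ((n : ℝ) - e) * ((h n : ℝ) - h (n - e)) ≤ e * m * h n := by
      refine le_trans (mul_le_mul_of_nonneg_right (by linarith) ?_) h1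
      have : (h (n - e) : ℝ) ≤ h n := by exact_mod_cast hm (Nat.sub_le n e)
      linarith
    obtain ⟨k, hk⟩ : ∃ k, n = k + 1 + e := ⟨n - e - 1, by omega⟩
    have e1 : n - e = k + 1 := by omega
    have e2 : n - (e + 1) = k := by omega
    have h3 : ((n : ℝ) - e) * ((h (k + 1) : ℝ) - h k) ≤ m * h n := by
      have h4 : ((k : ℝ) + 1) * h (k + 1) ≤ (k + 1 + m) * h k := by exact_mod_cast hg k
      have h5 : (n : ℝ) - e = k + 1 := by rw [hk]; push_cast; ring
      rw [h5]
      have h6 : (h k : ℝ) ≤ h n := by exact_mod_cast hm (by omega)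
      have h7 : (m : ℝ) * h k ≤ m * h n := mul_le_mul_of_nonneg_left h6 (Nat.cast_nonneg _)
      nlinarith
    rw [e2]
    rw [e1] at h2
    push_cast
    nlinarith

section Linear

variable {K V W W' : Type*} [Field K] [AddCommGroup V] [Module K V] [AddCommGroup W] [Module K W]
  [AddCommGroup W'] [Module K W']

theorem finrank_map_add (f : V →ₗ[K] W) (P : Submodule K V) [Module.Finite K P] :
    Module.finrank K (P.map f) + Module.finrank K (P ⊓ LinearMap.ker f : Submodule K V) =
      Module.finrank K P := by
  have h := LinearMap.finrank_range_add_finrank_ker (f.domRestrict P)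
  rw [LinearMap.range_domRestrict] at h
  rw [← h]
  congr 1
  have : (LinearMap.ker (f.domRestrict P)).map P.subtype = P ⊓ LinearMap.ker f := by
    ext v
    simp only [Submodule.mem_map, LinearMap.mem_ker, LinearMap.domRestrict_apply, Submodule.coe_subtype,
      Subtype.exists, exists_and_right, exists_eq_right, Submodule.mem_inf]
    exact ⟨fun ⟨h1, h2⟩ => ⟨h1, h2⟩, fun ⟨h1, h2⟩ => ⟨h1, h2⟩⟩
  rw [← this]
  exact Submodule.finrank_map_subtype_eq _ _

theorem finrank_map_le_map (f : V →ₗ[K] W) (g : V →ₗ[K] W') (P : Submodule K V) [Module.Finite K P]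
    (h : ∀ v ∈ P, f v = 0 → g v = 0) : Module.finrank K (P.map g) ≤ Module.finrank K (P.map f) := by
  have h1 := finrank_map_add f P
  have h2 := finrank_map_add g P
  have h3 : (P ⊓ LinearMap.ker f : Submodule K V) ≤ P ⊓ LinearMap.ker g :=
    fun v hv => ⟨hv.1, h v hv.1 hv.2⟩
  have : Module.Finite K (P ⊓ LinearMap.ker g : Submodule K V) :=
    Submodule.finiteDimensional_of_le inf_le_left
  have h4 := Submodule.finrank_mono h3
  omega

end Linear

section Quot

variable (K : Type*) {A B C σ : Type*} [Field K] [CommRing A] [Algebra K A] [CommRing B] [Algebra K B]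
  [CommRing C] [Algebra K C] [Finite σ]

/-- the dimension of the space of the values of the polynomials of degree at most `n` -/
noncomputable def hf (x : σ → A) (n : ℕ) : ℕ := Module.finrank K (vals K x n)

theorem hf_mono (x : σ → A) : Monotone (hf K x) := fun _ _ h => Submodule.finrank_mono (vals_mono K x h)

theorem hf_pos [Nontrivial A] (x : σ → A) (n : ℕ) : 0 < hf K x n := by
  have h1 : (1 : A) ∈ vals K x n := (mem_vals K).2 ⟨1, by simp, by simp⟩
  refine Module.finrank_pos_iff.2 ⟨⟨1, h1⟩, 0, ?_⟩
  intro h
  exact one_ne_zero (congrArg (fun z : vals K x n => (z : A)) h)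

variable {K}

/-- the growth function only depends on the ideal of the relations -/
theorem hf_le_of_ker (x : σ → A) (y : σ → B) 
    (h : ∀ p : MvPolynomial σ K, aeval x p = 0 → aeval y p = 0) (n : ℕ) : hf K y n ≤ hf K x n := 
  finrank_map_le_map _ _ _ fun v _ hv => h v hv

theorem hf_eq_of_ker (x : σ → A) (y : σ → B) 
    (h : ∀ p : MvPolynomial σ K, aeval x p = 0 ↔ aeval y p = 0) (n : ℕ) : hf K y n = hf K x n := 
  le_antisymm (hf_le_of_ker x y (fun p => (h p).1) n) (hf_le_of_ker y x (fun p => (h p).2) n)

/-- a nonzero element of the kernel in a domain makes the growth smaller -/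
theorem hf_add_le [IsDomain A] (x : σ → A) (y : σ → B) 
    (h : ∀ p : MvPolynomial σ K, aeval x p = 0 → aeval y p = 0) (a : MvPolynomial σ K)
    (ha : aeval x a ≠ 0) (ha' : aeval y a = 0) (n : ℕ) (hn : a.totalDegree ≤ n) :
    hf K y n + hf K x (n - a.totalDegree) ≤ hf K x n := by
  set e := a.totalDegree with he
  set R := restrictTotalDegree σ K n with hR
  have h1 := finrank_map_add (aeval (R := K) x).toLinearMap R
  have h2 := finrank_map_add (aeval (R := K) y).toLinearMap R
  -- compare the kernels
  set P := restrictTotalDegree σ K (n - e) with hP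
  have h3 := finrank_map_add (aeval (R := K) x).toLinearMap P
  let f : P →ₗ[K] (R ⊓ LinearMap.ker (aeval (R := K) y).toLinearMap : Submodule K _) :=
    LinearMap.codRestrict _ ((LinearMap.mulLeft K a).domRestrict P) (by
      intro c
      refine ⟨?_, ?_⟩
      · rw [hR]
        change _ ∈ restrictTotalDegree σ K n
        rw [mem_restrictTotalDegree]
        have := (mem_restrictTotalDegree (σ := σ) (R := K) _ _).1 c.2
        refine (totalDegree_mul a c.1).trans ?_
        omega
      · change aeval y (a * c.1) = 0
        rw [map_mul, ha', zero_mul])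
  let g : (R ⊓ LinearMap.ker (aeval (R := K) y).toLinearMap : Submodule K _) →ₗ[K] A :=
    (aeval (R := K) x).toLinearMap.domRestrict _
  have hfinI : Module.Finite K (R ⊓ LinearMap.ker (aeval (R := K) y).toLinearMap : Submodule K _) :=
    Submodule.finiteDimensional_of_le inf_le_left
  have h4 := LinearMap.finrank_range_add_finrank_ker g
  have h5 : Module.finrank K (LinearMap.ker g) =
      Module.finrank K (R ⊓ LinearMap.ker (aeval (R := K) x).toLinearMap : Submodule K _) := by
    have : (LinearMap.ker g).map (Submodule.subtype _) = R ⊓ LinearMap.ker (aeval (R := K) x).toLinearMap := by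
      ext v
      simp only [Submodule.mem_map, LinearMap.mem_ker, Submodule.coe_subtype,
        Subtype.exists, exists_and_right, exists_eq_right, Submodule.mem_inf, g, LinearMap.domRestrict_apply]
      constructor
      · rintro ⟨h1, h2⟩
        exact ⟨h1.1, h2⟩
      · rintro ⟨h1, h2⟩
        exact ⟨⟨h1, h v h2⟩, h2⟩
    rw [← this]
    exact (Submodule.finrank_map_subtype_eq _ _).symm
  have h6 : Module.finrank K (P.map (aeval (R := K) x).toLinearMap) ≤ Module.finrank K (LinearMap.range g) := by
    have h7 : (P.map (aeval (R := K) x).toLinearMap).map (LinearMap.mulLeft K (aeval x a)) ≤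
        LinearMap.range g := by
      rintro _ ⟨_, ⟨c, hc, rfl⟩, rfl⟩
      refine ⟨f ⟨c, hc⟩, ?_⟩
      change aeval x (a * c) = aeval x a * aeval x c
      rw [map_mul]
    have h8 : Function.Injective (LinearMap.mulLeft K (aeval x a)) := by
      intro u v huv
      exact mul_left_cancel₀ ha huv
    have h9 : Module.finrank K ((P.map (aeval (R := K) x).toLinearMap).map (LinearMap.mulLeft K (aeval x a))) =
        Module.finrank K (P.map (aeval (R := K) x).toLinearMap) :=
      (LinearEquiv.finrank_eq (Submodule.equivMapOfInjective _ h8 _)).symm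
    rw [← h9]
    exact Submodule.finrank_mono h7
  have e1 : hf K y n = Module.finrank K (R.map (aeval (R := K) y).toLinearMap) := rfl
  have e2 : hf K x n = Module.finrank K (R.map (aeval (R := K) x).toLinearMap) := rfl
  have e3 : hf K x (n - e) = Module.finrank K (P.map (aeval (R := K) x).toLinearMap) := rfl
  omega

/-- the rate of decay -/
theorem hf_rate [Fintype σ] [IsDomain A] (x : σ → A) (y : σ → B) 
    (h : ∀ p : MvPolynomial σ K, aeval x p = 0 → aeval y p = 0) (a : MvPolynomial σ K)
    (ha : aeval x a ≠ 0) (ha' : aeval y a = 0) (n : ℕ) (hn : a.totalDegree ≤ n) :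
    ((n : ℝ) - a.totalDegree + 1) * hf K y n ≤ a.totalDegree * Fintype.card σ * hf K x n := by
  have h1 := hf_add_le x y h a ha ha' n hn
  have h2 := diff_le (hf K x) (Fintype.card σ) (fun k => growth K x k) (hf_mono K x) n _ hn
  have h3 : (hf K y n : ℝ) + hf K x (n - a.totalDegree) ≤ hf K x n := by exact_mod_cast h1
  refine le_trans (mul_le_mul_of_nonneg_left (by linarith) ?_) h2
  have : (a.totalDegree : ℝ) ≤ n := by exact_mod_cast hn
  linarith

/-- shifts do not change the growth function much -/
theorem hf_shift [Fintype σ] (x : σ → A) (n e : ℕ) :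
    ((n : ℝ) + 1) * ((hf K x (n + e) : ℝ) - hf K x n) ≤ e * Fintype.card σ * hf K x (n + e) := by
  have h2 := diff_le (hf K x) (Fintype.card σ) (fun k => growth K x k) (hf_mono K x) (n + e) e (by omega)
  have h3 : n + e - e = n := by omega
  rw [h3] at h2
  refine le_trans (le_of_eq ?_) h2
  push_cast
  ring

end Quot

end Pool.Agent.Q57.PH
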