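import Mathlib

/-!
# The growth of the spaces of polynomials of bounded degree in elements of an algebra

For elements `x i` (`i` in a finite set with `m` elements) of a commutative algebra over a field let `h n` be the
dimension of the space of the values at `x` of the polynomials of degree at most `n`. Then
`(n + 1) h (n + 1) ≤ (n + 1 + m) h n`.
-/

set_option autoImplicit false

open MvPolynomial Finsupp

namespace Pool.Agent.Q57.PH

section Greedy

variable {K V ι : Type*} [Field K] [AddCommGroup V] [Module K V] [LinearOrder ι]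

/-- the indices `i` for which `v i` is not a combination of the earlier vectors -/
def std (K : Type*) {V ι : Type*} [Field K] [AddCommGroup V] [Module K V] [LinearOrder ι] (v : ι → V) : Set ι :=
  {i | v i ∉ Submodule.span K (v '' Set.Iio i)}

theorem std_li (v : ι → V) : LinearIndependent K (fun i : std K v => v i) := by
  classical
  rw [linearIndependent_iff']
  intro s g hg
  by_contra hne
  push Not at hne
  obtain ⟨i0, hi0, hgi0⟩ := hne
  set t := s.filter (fun i => g i ≠ 0) with ht
  have htn : t.Nonempty := ⟨i0, by simp [ht, hi0, hgi0]⟩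
  obtain ⟨i, hit, hmax⟩ := t.exists_max_image (fun i => (i : ι)) htn
  have hgi : g i ≠ 0 := (Finset.mem_filter.1 hit).2
  have hsum : ∑ j ∈ t, g j • v j = 0 := by
    rw [← hg, ht]
    refine Finset.sum_filter_of_ne fun j _ hj => ?_
    intro h
    exact hj (by rw [h, zero_smul])
  rw [← Finset.add_sum_erase t _ hit] at hsum
  have : v i = -(g i)⁻¹ • ∑ j ∈ t.erase i, g j • v j := by
    have h1 : g i • v i = -∑ j ∈ t.erase i, g j • v j := eq_neg_of_add_eq_zero_left hsum
    calc v i = (g i)⁻¹ • (g i • v i) := by rw [smul_smul, inv_mul_cancel₀ hgi, one_smul]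
      _ = _ := by rw [h1, smul_neg, neg_smul]
  apply i.2
  rw [this]
  refine Submodule.smul_mem _ _ (Submodule.sum_mem _ fun j hj => Submodule.smul_mem _ _
    (Submodule.subset_span ⟨j, ?_, rfl⟩))
  have h1 := hmax j (Finset.mem_of_mem_erase hj)
  have h2 : j ≠ i := Finset.ne_of_mem_erase hj
  exact lt_of_le_of_ne h1 (fun h => h2 (Subtype.ext h))

theorem mem_span_std [WellFoundedLT ι] (v : ι → V) (i : ι) :
    v i ∈ Submodule.span K (v '' (std K v ∩ Set.Iic i)) := by
  induction i using WellFoundedLT.induction with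
  | ind i ih =>
    by_cases hi : i ∈ std K v
    · exact Submodule.subset_span ⟨i, ⟨hi, le_refl i⟩, rfl⟩
    · have h1 : v i ∈ Submodule.span K (v '' Set.Iio i) := by
        by_contra h
        exact hi h
      refine (Submodule.span_le.2 ?_) h1
      rintro _ ⟨j, hj, rfl⟩
      refine Submodule.span_mono ?_ (ih j hj)
      exact Set.image_mono (Set.inter_subset_inter_right _ (Set.Iic_subset_Iic.2 (le_of_lt hj)))

theorem span_lower [WellFoundedLT ι] (v : ι → V) (L : Set ι) (hL : IsLowerSet L) :
    Submodule.span K (v '' L) = Submodule.span K (v '' (std K v ∩ L)) := by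
  refine le_antisymm (Submodule.span_le.2 ?_) (Submodule.span_mono (Set.image_mono Set.inter_subset_right))
  rintro _ ⟨i, hi, rfl⟩
  refine Submodule.span_mono ?_ (mem_span_std v i)
  exact Set.image_mono (Set.inter_subset_inter_right _ fun j hj => hL hj hi)

theorem finrank_lower [WellFoundedLT ι] (v : ι → V) (L : Set ι) (hL : IsLowerSet L) (hf : L.Finite) :
    Module.finrank K (Submodule.span K (v '' L)) = (std K v ∩ L).ncard := by
  rw [span_lower v L hL]
  have h1 : LinearIndependent K (fun i : (std K v ∩ L : Set ι) => v i) :=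
    (std_li v).comp (fun i : (std K v ∩ L : Set ι) => (⟨i.1, i.2.1⟩ : std K v))
      (fun a b h => Subtype.ext (congrArg (fun z : std K v => z.1) h))
  have h2 : v '' (std K v ∩ L) = Set.range (fun i : (std K v ∩ L : Set ι) => v i) := by
    ext z
    simp
  rw [h2]
  have hfin : (std K v ∩ L).Finite := hf.inter_of_right _
  have := hfin.fintype
  rw [finrank_span_eq_card h1, Set.ncard_eq_toFinset_card', Set.toFinset_card]

end Greedy

section Count

variable {m : ℕ}

/-- the exponents of degree at most `n` -/
noncomputable def box (m n : ℕ) : Finset (Fin m →₀ ℕ) := (Finsupp.finite_of_degree_le (σ := Fin m) n).toFinset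

theorem mem_box {n : ℕ} {u : Fin m →₀ ℕ} : u ∈ box m n ↔ u.degree ≤ n := by
  simp [box]

open Classical in
theorem count (M : Set (Fin m →₀ ℕ)) (hM : ∀ u ∈ M, ∀ i, u i ≠ 0 → u - Finsupp.single i 1 ∈ M) (n : ℕ) :
    (n + 1) * ((box m (n + 1)).filter (· ∈ M)).card ≤ (n + 1 + m) * ((box m n).filter (· ∈ M)).card := by
  set P := (box m (n + 1)).filter (· ∈ M) with hP
  set Q := (box m n).filter (· ∈ M) with hQ
  have hQP : Q ⊆ P := by
    intro u hu
    simp only [hQ, hP, Finset.mem_filter, mem_box] at hu ⊢
    exact ⟨by omega, hu.2⟩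
  have hdeg : ∀ u : Fin m →₀ ℕ, u.degree = ∑ i, u i := fun u => Finsupp.degree_eq_sum u
  have h1 : ∀ i, ∑ u ∈ P, u i ≤ ∑ v ∈ Q, (v i + 1) := by
    intro i
    have e1 : ∑ u ∈ P, u i = ∑ u ∈ P.filter (fun u => u i ≠ 0), u i := by
      symm
      exact Finset.sum_filter_of_ne fun u _ h => h
    rw [e1]
    have hinj : Set.InjOn (fun u : Fin m →₀ ℕ => u - Finsupp.single i 1) (P.filter (fun u => u i ≠ 0)) := by
      intro u hu v hv huv
      simp only [Finset.coe_filter, Set.mem_ofPred_eq] at hu hv
      have hu1 : u = (u - Finsupp.single i 1) + Finsupp.single i 1 := by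
        rw [tsub_add_cancel_of_le]
        exact Finsupp.single_le_iff.2 (Nat.one_le_iff_ne_zero.2 hu.2)
      have hv1 : v = (v - Finsupp.single i 1) + Finsupp.single i 1 := by
        rw [tsub_add_cancel_of_le]
        exact Finsupp.single_le_iff.2 (Nat.one_le_iff_ne_zero.2 hv.2)
      rw [hu1, hv1]
      exact congrArg (· + Finsupp.single i 1) huv
    have e2 : ∑ u ∈ P.filter (fun u => u i ≠ 0), u i =
        ∑ v ∈ (P.filter (fun u => u i ≠ 0)).image (fun u => u - Finsupp.single i 1), (v i + 1) := by
      rw [Finset.sum_image hinj]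
      refine Finset.sum_congr rfl fun u hu => ?_
      have := (Finset.mem_filter.1 hu).2
      simp only [Finsupp.coe_tsub, Pi.sub_apply, Finsupp.single_eq_same]
      omega
    rw [e2]
    refine Finset.sum_le_sum_of_subset fun v hv => ?_
    obtain ⟨u, hu, rfl⟩ := Finset.mem_image.1 hv
    obtain ⟨hu1, hu2⟩ := Finset.mem_filter.1 hu
    simp only [hP, Finset.mem_filter, mem_box] at hu1
    simp only [hQ, Finset.mem_filter, mem_box]
    refine ⟨?_, hM u hu1.2 i hu2⟩
    have h3 : u = (u - Finsupp.single i 1) + Finsupp.single i 1 := by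
      rw [tsub_add_cancel_of_le]
      exact Finsupp.single_le_iff.2 (Nat.one_le_iff_ne_zero.2 hu2)
    have h4 : u.degree = (u - Finsupp.single i 1).degree + 1 := by
      conv_lhs => rw [h3]
      rw [map_add, Finsupp.degree_single]
    omega
  have h2 : ∑ u ∈ P, (n + 1 - u.degree) = ∑ u ∈ Q, (n + 1 - u.degree) := by
    symm
    refine Finset.sum_subset hQP fun u hu hu' => ?_
    simp only [hP, hQ, Finset.mem_filter, mem_box] at hu hu'
    have : ¬ u.degree ≤ n := fun h => hu' ⟨h, hu.2⟩
    omega
  have h3 : (n + 1) * P.card = ∑ u ∈ P, (∑ i, u i + (n + 1 - u.degree)) := by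
    rw [mul_comm, ← smul_eq_mul, ← Finset.sum_const]
    refine Finset.sum_congr rfl fun u hu => ?_
    simp only [hP, Finset.mem_filter, mem_box] at hu
    rw [← hdeg]
    omega
  have h4 : (n + 1 + m) * Q.card = ∑ v ∈ Q, (∑ i : Fin m, (v i + 1) + (n + 1 - v.degree)) := by
    rw [mul_comm, ← smul_eq_mul, ← Finset.sum_const]
    refine Finset.sum_congr rfl fun v hv => ?_
    simp only [hQ, Finset.mem_filter, mem_box] at hv
    rw [Finset.sum_add_distrib, ← hdeg]
    simp
    omega
  rw [h3, h4, Finset.sum_add_distrib, Finset.sum_add_distrib, h2]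
  refine Nat.add_le_add_right ?_ _
  rw [Finset.sum_comm, Finset.sum_comm (s := Q)]
  exact Finset.sum_le_sum fun i _ => h1 i

end Count

end Pool.Agent.Q57.PH
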