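import Pool.Agent.Q57.PH.Tr

/-!
# Torsors under groups of matrices
-/

set_option autoImplicit false

open MvPolynomial Algebra

namespace Pool.Agent.Q57.PH

variable {K : Type*} [Field K] {N : ℕ}

/-- the entries of a matrix as a function of a pair -/
def ent (m : Matrix (Fin N) (Fin N) K) : Fin N × Fin N → K := fun e => m e.1 e.2

/-- the points of the translate `G g₀` -/
def pts (G : Subgroup (GL (Fin N) K)) (g₀ : GL (Fin N) K) : Set (Fin N × Fin N → K) :=
  {v | ∃ g ∈ G, v = ent (g * g₀ : GL (Fin N) K).val}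

/-- the substitution given by a matrix -/
noncomputable def sub (h : Matrix (Fin N) (Fin N) K) :
    MvPolynomial (Fin N × Fin N) K →ₐ[K] MvPolynomial (Fin N × Fin N) K :=
  aeval fun e => ∑ k, C (h e.1 k) * X (k, e.2)

theorem sub_X (h : Matrix (Fin N) (Fin N) K) (e : Fin N × Fin N) :
    sub h (X e) = ∑ k, C (h e.1 k) * X (k, e.2) := by
  rw [sub, aeval_X]

theorem sub_sub (h h' : Matrix (Fin N) (Fin N) K) (p : MvPolynomial (Fin N × Fin N) K) :
    sub h' (sub h p) = sub (h * h') p := by
  have : (sub h').comp (sub h) = sub (h * h') := by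
    apply MvPolynomial.algHom_ext
    intro e
    rw [AlgHom.comp_apply, sub_X, sub_X, map_sum]
    simp only [map_mul, sub_X, Matrix.mul_apply, map_sum, Finset.mul_sum, Finset.sum_mul]
    rw [Finset.sum_comm]
    refine Finset.sum_congr rfl fun k _ => Finset.sum_congr rfl fun l _ => ?_
    have : sub h' (C (h e.1 l)) = C (h e.1 l) := by
      rw [← algebraMap_eq]
      exact AlgHom.commutes _ _
    rw [this, mul_assoc]
  rw [← this]
  rfl

theorem sub_one (p : MvPolynomial (Fin N × Fin N) K) : sub (1 : Matrix (Fin N) (Fin N) K) p = p := by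
  have : sub (1 : Matrix (Fin N) (Fin N) K) = AlgHom.id K _ := by
    apply MvPolynomial.algHom_ext
    intro e
    rw [sub_X, AlgHom.id_apply]
    rw [Finset.sum_eq_single e.1]
    · simp
    · intro k _ hk
      rw [Matrix.one_apply_ne (Ne.symm hk), map_zero, zero_mul]
    · intro h
      exact absurd (Finset.mem_univ _) h
  rw [this]
  rfl

theorem sub_degree (h : Matrix (Fin N) (Fin N) K) (p : MvPolynomial (Fin N × Fin N) K) :
    (sub h p).totalDegree ≤ p.totalDegree := by
  classical
  rw [sub, aeval_def, eval₂_eq']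
  refine totalDegree_finsetSum_le fun d hd => ?_
  refine (totalDegree_mul _ _).trans ?_
  have h1 : (algebraMap K (MvPolynomial (Fin N × Fin N) K) (coeff d p)).totalDegree = 0 := by
    rw [algebraMap_eq, totalDegree_C]
  rw [h1, zero_add]
  refine (totalDegree_finsetProd _ _).trans ?_
  have h2 : ∀ e : Fin N × Fin N,
      ((∑ k, C (h e.1 k) * X (k, e.2) : MvPolynomial (Fin N × Fin N) K) ^ d e).totalDegree ≤ d e := by
    intro e
    refine (totalDegree_pow _ _).trans ?_
    have h3 : (∑ k, C (h e.1 k) * X (k, e.2) : MvPolynomial (Fin N × Fin N) K).totalDegree ≤ 1 := by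
      refine totalDegree_finsetSum_le fun k _ => (totalDegree_mul _ _).trans ?_
      rw [totalDegree_C, zero_add]
      exact (totalDegree_X _).le
    calc d e * _ ≤ d e * 1 := Nat.mul_le_mul_left _ h3
      _ = d e := mul_one _
  refine (Finset.sum_le_sum fun e _ => h2 e).trans ?_
  have h4 := le_totalDegree hd
  rw [Finsupp.sum_fintype] at h4
  · exact h4
  · intro _; rfl

theorem eval_sub (h m : Matrix (Fin N) (Fin N) K) (p : MvPolynomial (Fin N × Fin N) K) :
    eval (ent m) (sub h p) = eval (ent (h * m)) p := by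
  have h1 : (aeval (R := K) (ent m)).comp (sub h) = aeval (R := K) (ent (h * m)) := by
    apply MvPolynomial.algHom_ext
    intro e
    rw [AlgHom.comp_apply, sub_X, map_sum, aeval_X]
    simp only [map_mul, aeval_X, ent, Matrix.mul_apply, aeval_C, Algebra.algebraMap_self, RingHom.id_apply]
  exact congrArg (fun f => f p) h1

theorem homog (G : Subgroup (GL (Fin N) K)) (g₀ : GL (Fin N) K) : Homog (pts G g₀) := by
  rintro _ ⟨g₁, hg₁, rfl⟩ _ ⟨g₂, hg₂, rfl⟩
  set h : GL (Fin N) K := g₂ * g₁⁻¹ with hh
  have hG : h ∈ G := G.mul_mem hg₂ (G.inv_mem hg₁)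
  let τ : MvPolynomial (Fin N × Fin N) K ≃ₐ[K] MvPolynomial (Fin N × Fin N) K :=
    AlgEquiv.ofAlgHom (sub h.val) (sub (h⁻¹).val) (by
      ext1 e
      rw [AlgHom.comp_apply, sub_sub, ← Units.val_mul, inv_mul_cancel, Units.val_one, sub_one]
      rfl) (by
      ext1 e
      rw [AlgHom.comp_apply, sub_sub, ← Units.val_mul, mul_inv_cancel, Units.val_one, sub_one]
      rfl)
  have hev : ∀ p g, eval (ent (g : GL (Fin N) K).val) (τ p) = eval (ent (h * g : GL (Fin N) K).val) p := by
    intro p g
    exact eval_sub _ _ _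
  refine ⟨τ, fun p => sub_degree _ p, fun p => sub_degree _ p, fun p => ?_, fun p => ?_⟩
  · rw [mem_vI, mem_vI]
    constructor
    · rintro hp _ ⟨g, hg, rfl⟩
      rw [hev, ← mul_assoc]
      exact hp _ ⟨h * g, G.mul_mem hG hg, rfl⟩
    · rintro hp _ ⟨g, hg, rfl⟩
      have := hp _ ⟨h⁻¹ * g, G.mul_mem (G.inv_mem hG) hg, rfl⟩
      rwa [hev, ← mul_assoc, ← mul_assoc, mul_inv_cancel, one_mul] at this
  · rw [hev, hh]
    congr 3
    group

/-- the coordinate ring of the Zariski closure of a group of matrices -/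
noncomputable def coordinateRing (G : Subgroup (GL (Fin N) K)) : Subalgebra K (G → K) :=
  Algebra.adjoin K (Set.range fun e : Fin N × Fin N => fun g : G => g.1.val e.1 e.2)

/-- the functions on the group given by the entries of the translate -/
def tr (G : Subgroup (GL (Fin N) K)) (g₀ : GL (Fin N) K) (e : Fin N × Fin N) : G → K :=
  fun g => (g.1 * g₀ : GL (Fin N) K).val e.1 e.2

theorem coordinateRing_eq (G : Subgroup (GL (Fin N) K)) (g₀ : GL (Fin N) K) :
    coordinateRing G = (aeval (R := K) (tr G g₀)).range := by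
  rw [← adjoin_range_eq_range_aeval]
  refine le_antisymm (Algebra.adjoin_le ?_) (Algebra.adjoin_le ?_)
  · rintro _ ⟨e, rfl⟩
    have h1 : (fun g : G => g.1.val e.1 e.2) = ∑ k, (g₀⁻¹).val k e.2 • tr G g₀ (e.1, k) := by
      funext g
      have : g.1 = (g.1 * g₀) * g₀⁻¹ := by group
      rw [this, Units.val_mul, Matrix.mul_apply, Finset.sum_apply]
      refine Finset.sum_congr rfl fun k _ => ?_
      rw [Pi.smul_apply, smul_eq_mul, mul_comm]
      rfl
    change (fun g : G => g.1.val e.1 e.2) ∈ _
    rw [h1]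
    exact Subalgebra.sum_mem _ fun k _ => Subalgebra.smul_mem _ (Algebra.subset_adjoin (Set.mem_range_self _)) _
  · rintro _ ⟨e, rfl⟩
    have h1 : tr G g₀ e = ∑ k, g₀.val k e.2 • (fun g : G => g.1.val e.1 k) := by
      funext g
      rw [tr, Units.val_mul, Matrix.mul_apply, Finset.sum_apply]
      refine Finset.sum_congr rfl fun k _ => ?_
      rw [Pi.smul_apply, smul_eq_mul, mul_comm]
    rw [h1]
    exact Subalgebra.sum_mem _ fun k _ => Subalgebra.smul_mem _
      (Algebra.subset_adjoin (Set.mem_range_self (e.1, k))) _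

theorem ker_tr (G : Subgroup (GL (Fin N) K)) (g₀ : GL (Fin N) K) :
    RingHom.ker (aeval (R := K) (tr G g₀)) = vI (pts G g₀) := by
  ext p
  rw [RingHom.mem_ker, mem_vI]
  have h1 : ∀ g : G, aeval (tr G g₀) p g = eval (ent (g.1 * g₀ : GL (Fin N) K).val) p := by
    intro g
    have h := comp_aeval_apply (tr G g₀) (Pi.evalAlgHom K (fun _ : G => K) g) p
    rw [Pi.evalAlgHom_apply] at h
    rw [h]
    rfl
  constructor
  · rintro h _ ⟨g, hg, rfl⟩
    rw [← h1 ⟨g, hg⟩, h]
    rfl
  · intro h
    funext g
    rw [h1]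
    exact h _ ⟨g.1, g.2, rfl⟩

noncomputable def ringEquiv (G : Subgroup (GL (Fin N) K)) (g₀ : GL (Fin N) K) :
    (MvPolynomial (Fin N × Fin N) K ⧸ vI (pts G g₀)) ≃ₐ[K] coordinateRing G :=
  ((Ideal.quotientEquivAlgOfEq K (ker_tr G g₀).symm).trans
    (Ideal.quotientKerEquivRange (aeval (R := K) (tr G g₀)))).trans
    (Subalgebra.equivOfEq _ _ (coordinateRing_eq G g₀).symm)

/-- the number of components -/
theorem ncard_comps (G : Subgroup (GL (Fin N) K)) (g₀ : GL (Fin N) K) :
    (minimalPrimes (coordinateRing G)).ncard = (comps (pts G g₀)).card := by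
  let f : MvPolynomial (Fin N × Fin N) K →+* coordinateRing G :=
    ((ringEquiv G g₀ : _ →+* coordinateRing G)).comp (Ideal.Quotient.mk (vI (pts G g₀)))
  have hf : Function.Surjective f := (ringEquiv G g₀).surjective.comp Ideal.Quotient.mk_surjective
  have hk : Ideal.comap f ⊥ = vI (pts G g₀) := by
    ext p
    rw [Ideal.mem_comap, Ideal.mem_bot]
    change ringEquiv G g₀ (Ideal.Quotient.mk _ p) = 0 ↔ _
    rw [map_eq_zero_iff _ (ringEquiv G g₀).injective, Ideal.Quotient.eq_zero_iff_mem]
  have h1 := Ideal.comap_minimalPrimes_eq_of_surjective hf (⊥ : Ideal (coordinateRing G))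
  rw [hk] at h1
  have h2 : (comps (pts G g₀) : Set (Ideal (MvPolynomial (Fin N × Fin N) K))) = (vI (pts G g₀)).minimalPrimes := by
    ext Q
    rw [Finset.mem_coe, mem_comps]
    rfl
  rw [← Set.ncard_coe_finset, h2, h1]
  exact (Set.ncard_image_of_injective _ (Ideal.comap_injective_of_surjective f hf)).symm

/-- the span of the products of `n` coordinates, one of which is equal to one -/
theorem span_prod {A σ : Type*} [CommRing A] [Algebra K A] (x : σ → A) (e : σ) (he : x e = 1) (n : ℕ) :
    Submodule.span K (Set.range fun w : Fin n → σ => ∏ k, x (w k)) = vals K x n := by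
  have hx : ∀ (n : ℕ) (a : A) (i : σ), a ∈ Submodule.span K (Set.range fun w : Fin n → σ => ∏ k, x (w k)) →
      x i * a ∈ Submodule.span K (Set.range fun w : Fin (n + 1) → σ => ∏ k, x (w k)) := by
    intro n a i ha
    have h1 : Submodule.map (LinearMap.mulLeft K (x i))
        (Submodule.span K (Set.range fun w : Fin n → σ => ∏ k, x (w k))) ≤
        Submodule.span K (Set.range fun w : Fin (n + 1) → σ => ∏ k, x (w k)) := by
      rw [Submodule.map_span, Submodule.span_le]
      rintro _ ⟨_, ⟨w, rfl⟩, rfl⟩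
      refine Submodule.subset_span ⟨Fin.cons i w, ?_⟩
      simp only [Fin.prod_univ_succ, Fin.cons_zero, Fin.cons_succ, LinearMap.mulLeft_apply]
    exact h1 ⟨a, ha, rfl⟩
  have hmon : ∀ (n : ℕ) (u : σ →₀ ℕ), u.degree ≤ n →
      aeval x (monomial u (1 : K)) ∈ Submodule.span K (Set.range fun w : Fin n → σ => ∏ k, x (w k)) := by
    classical
    intro n
    induction n with
    | zero =>
      intro u hu
      have : u = 0 := by rwa [Nat.le_zero, Finsupp.degree_eq_zero_iff] at hu
      rw [this]
      refine Submodule.subset_span ⟨Fin.elim0, ?_⟩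
      simp
    | succ n ih =>
      intro u hu
      by_cases h0 : u = 0
      · rw [h0]
        have h1 := hx n _ e (ih 0 (by simp))
        rwa [he, one_mul] at h1
      · obtain ⟨i, hi⟩ := Finsupp.ne_iff.1 h0
        have hi' : 1 ≤ u i := Nat.one_le_iff_ne_zero.2 hi
        set w := u - Finsupp.single i 1 with hw
        have huw : u = w + Finsupp.single i 1 := by
          rw [hw, tsub_add_cancel_of_le]
          exact Finsupp.single_le_iff.2 hi'
        have hdw : w.degree ≤ n := by
          have h2 := congrArg Finsupp.degree huw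
          rw [map_add, Finsupp.degree_single] at h2
          omega
        have h3 : aeval x (monomial u (1 : K)) = x i * aeval x (monomial w (1 : K)) := by
          rw [huw, show monomial (w + Finsupp.single i 1) (1 : K) = X i * monomial w 1 by
            rw [X, monomial_mul, one_mul, add_comm], map_mul, aeval_X]
        rw [h3]
        exact hx n _ i (ih w hdw)
  refine le_antisymm (Submodule.span_le.2 ?_) ?_
  · rintro _ ⟨w, rfl⟩
    refine (mem_vals K).2 ⟨∏ k, X (w k), ?_, ?_⟩
    · refine (totalDegree_finsetProd _ _).trans ?_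
      refine (Finset.sum_le_sum fun k _ => (totalDegree_X (R := K) (w k)).le).trans ?_
      simp
    · rw [map_prod]
      exact Finset.prod_congr rfl fun k _ => aeval_X _ _
  · rw [vals_eq_span, Submodule.span_le]
    rintro _ ⟨u, hu, rfl⟩
    exact hmon n u hu

end Pool.Agent.Q57.PH
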