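import Pool.Agent.Q57.PH.Trans

/-!
# Transcendence degrees
-/

set_option autoImplicit false

open MvPolynomial Algebra Cardinal

universe u v

namespace Pool.Agent.Q57.PH

/-- a proper quotient domain of a domain of finite type has smaller transcendence degree -/
theorem trdeg_lt {K : Type u} {B C : Type v} [Field K] [CommRing B] [IsDomain B] [Algebra K B] [FiniteType K B]
    [CommRing C] [IsDomain C] [Algebra K C] (f : B →ₐ[K] C) (hf : Function.Surjective f)
    (hi : ¬ Function.Injective f) : trdeg K C < trdeg K B := by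
  obtain ⟨ι, x, hx⟩ := exists_isTranscendenceBasis' K C
  by_contra hcon
  rw [not_lt, ← hx.cardinalMk_eq_trdeg] at hcon
  have hy : AlgebraicIndependent K (fun i => Function.surjInv hf (x i)) := by
    refine AlgebraicIndependent.of_comp f ?_
    have : (f ∘ fun i => Function.surjInv hf (x i)) = x := by
      funext i
      exact Function.surjInv_eq hf (x i)
    rw [this]
    exact hx.1
  set y := fun i => Function.surjInv hf (x i) with hydef
  have hyb : IsTranscendenceBasis K y := hy.isTranscendenceBasis_of_trdeg_le trdeg_lt_aleph0_of_finiteType hcon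
  have halg := hyb.isAlgebraic
  have hker : ∃ a, a ≠ 0 ∧ f a = 0 := by
    rw [injective_iff_map_eq_zero] at hi
    push Not at hi
    obtain ⟨a, ha, ha'⟩ := hi
    exact ⟨a, ha', ha⟩
  obtain ⟨a, ha, ha'⟩ := hker
  obtain ⟨r, hr, b, hb⟩ := (halg.isAlgebraic a).exists_nonzero_dvd (mem_nonZeroDivisors_of_ne_zero ha)
  have h1 : f r.1 = 0 := by
    have : (algebraMap (adjoin K (Set.range y)) B) r = r.1 := rfl
    rw [← this, hb, map_mul, ha', zero_mul]
  have h2 : r.1 ∈ (aeval (R := K) y).range := by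
    rw [← adjoin_range_eq_range_aeval]
    exact r.2
  obtain ⟨p, hp⟩ := h2
  have h3 : aeval x p = 0 := by
    have h4 := comp_aeval_apply y f p
    have h5 : (fun i => f (y i)) = x := by
      funext i
      exact Function.surjInv_eq hf (x i)
    rw [h5] at h4
    rw [← h4]
    have : (aeval y) p = r.1 := hp
    rw [this, h1]
  have h4 : p = 0 := (algebraicIndependent_iff_injective_aeval.1 hx.1) (by rw [h3, map_zero])
  apply hr
  apply Subtype.ext
  have h5 : (aeval y) p = r.1 := hp
  rw [← h5, h4, map_zero]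
  rfl

theorem trdeg_congr {K : Type u} {B C : Type v} [CommRing K] [CommRing B] [Algebra K B]
    [CommRing C] [Algebra K C] (f : B ≃ₐ[K] C) : trdeg K B = trdeg K C :=
  le_antisymm (trdeg_le_of_injective f.toAlgHom f.injective)
    (trdeg_le_of_injective f.symm.toAlgHom f.symm.injective)

open scoped IntermediateField.algebraAdjoinAdjoin in
theorem trdeg_adjoin_aux {K σ L : Type v} [Field K] [Field L] [Algebra K L] (β : σ → L) :
    trdeg K (IntermediateField.adjoin K (Set.range β)) = trdeg K (adjoin K (Set.range β)) := by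
  have h : trdeg K (adjoin K (Set.range β)) + trdeg (adjoin K (Set.range β))
      (IntermediateField.adjoin K (Set.range β)) = trdeg K (IntermediateField.adjoin K (Set.range β)) :=
    trdeg_add_eq _ _
  have h2 : trdeg (adjoin K (Set.range β)) (IntermediateField.adjoin K (Set.range β)) = 0 := by
    exact trdeg_eq_zero
  rw [← h, h2, add_zero]

/-- the transcendence degree of a field generated by values -/
theorem trdeg_field {K σ L : Type v} [Field K] [Field L] [Algebra K L] (β : σ → L) :
    trdeg K (IntermediateField.adjoin K (Set.range β)) =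
      trdeg K (MvPolynomial σ K ⧸ RingHom.ker (aeval (R := K) β)) := by
  have e1 : trdeg K (MvPolynomial σ K ⧸ RingHom.ker (aeval (R := K) β)) = trdeg K (aeval (R := K) β).range :=
    trdeg_congr (Ideal.quotientKerEquivRange (aeval (R := K) β))
  have e2 : trdeg K (aeval (R := K) β).range = trdeg K (adjoin K (Set.range β)) := by
    rw [adjoin_range_eq_range_aeval]
  rw [e1, e2]
  have h := trdeg_adjoin_aux (K := K) β
  rw [h]

theorem factor_surj {K A : Type*} [CommRing K] [CommRing A] [Algebra K A] {I J : Ideal A} (h : I ≤ J) :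
    Function.Surjective (Ideal.Quotient.factorₐ K h) := by
  intro a
  obtain ⟨p, rfl⟩ := Ideal.Quotient.mk_surjective a
  exact ⟨Ideal.Quotient.mk _ p, rfl⟩

theorem factor_mk {K A : Type*} [CommRing K] [CommRing A] [Algebra K A] {I J : Ideal A} (h : I ≤ J) (p : A) :
    Ideal.Quotient.factorₐ K h (Ideal.Quotient.mk I p) = Ideal.Quotient.mk J p := rfl

theorem trdeg_comp_le {K σ : Type v} [Field K] [Finite σ] {T : Set (σ → K)} (hT : Homog T)
    {Q Q' : Ideal (MvPolynomial σ K)} (hQ : Q ∈ comps T) (hQ' : Q' ∈ comps T) :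
    trdeg K (MvPolynomial σ K ⧸ Q') ≤ trdeg K (MvPolynomial σ K ⧸ Q) := by
  obtain ⟨τ, -, -, hm⟩ := transitive hT hQ hQ'
  let f : (MvPolynomial σ K ⧸ Q') →ₐ[K] (MvPolynomial σ K ⧸ Q) :=
    Ideal.Quotient.liftₐ Q' ((Ideal.Quotient.mkₐ K Q).comp (τ : MvPolynomial σ K →ₐ[K] MvPolynomial σ K)) (by
      intro a ha
      exact Ideal.Quotient.eq_zero_iff_mem.2 ((hm a).1 ha))
  refine trdeg_le_of_injective f ?_
  rw [injective_iff_map_eq_zero]
  intro a
  obtain ⟨p, rfl⟩ := Ideal.Quotient.mk_surjective a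
  intro h
  have h1 : Ideal.Quotient.mk Q (τ p) = 0 := h
  exact Ideal.Quotient.eq_zero_iff_mem.2 ((hm p).2 (Ideal.Quotient.eq_zero_iff_mem.1 h1))

/-- an independent family stays independent in one of the factors -/
theorem exists_indep {K A ι s : Type*} {B : ι → Type*} [Field K] [CommRing A] [Algebra K A]
    [∀ i, CommRing (B i)] [∀ i, Algebra K (B i)] [Fintype ι] (F : ∀ i, A →ₐ[K] B i)
    (hF : ∀ a, (∀ i, F i a = 0) → a = 0) (x : s → A) (hx : AlgebraicIndependent K x) :
    ∃ i, AlgebraicIndependent K (fun j => F i (x j)) := by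
  by_contra hex
  push Not at hex
  have h1 : ∀ i, ∃ p : MvPolynomial s K, p ≠ 0 ∧ aeval (fun j => F i (x j)) p = 0 := by
    intro i
    have := hex i
    rw [algebraicIndependent_iff] at this
    push Not at this
    obtain ⟨p, h1, h2⟩ := this
    exact ⟨p, h2, h1⟩
  choose p hp hp' using h1
  have h2 : (∏ i, p i) ≠ 0 := Finset.prod_ne_zero_iff.2 fun i _ => hp i
  apply h2
  rw [algebraicIndependent_iff] at hx
  refine hx _ (hF _ fun i => ?_)
  rw [comp_aeval_apply, map_prod]
  exact Finset.prod_eq_zero (Finset.mem_univ i) (hp' i)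

theorem trdeg_le_of_factors {K : Type*} {A : Type v} {ι : Type*} {B : ι → Type v} [Field K] [CommRing A] [Algebra K A]
    [∀ i, CommRing (B i)] [∀ i, Algebra K (B i)] [Fintype ι] (F : ∀ i, A →ₐ[K] B i)
    (hF : ∀ a, (∀ i, F i a = 0) → a = 0) (c : Cardinal.{v}) (hc : ∀ i, trdeg K (B i) ≤ c) : trdeg K A ≤ c := by
  refine ciSup_le' ?_
  rintro ⟨s, hs⟩
  obtain ⟨i, hi⟩ := exists_indep F hF (fun i : s => (i.1 : A)) hs
  exact hi.cardinalMk_le_trdeg.trans (hc i)

/-- the dimension of the closure is the dimension of any component -/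
theorem trdeg_T {K σ : Type v} [Field K] [Finite σ] {T : Set (σ → K)} (hT : Homog T)
    {Q : Ideal (MvPolynomial σ K)} (hQ : Q ∈ comps T) :
    trdeg K (MvPolynomial σ K ⧸ vI T) = trdeg K (MvPolynomial σ K ⧸ Q) := by
  have hle : ∀ Q' ∈ comps T, vI T ≤ Q' := fun Q' h => ((mem_comps T).1 h).le
  refine le_antisymm ?_ (trdeg_le_of_surjective (Ideal.Quotient.factorₐ K (hle Q hQ)) (factor_surj (hle Q hQ)))
  refine trdeg_le_of_factors (ι := comps T) (fun Q' => Ideal.Quotient.factorₐ K (hle Q'.1 Q'.2)) ?_ _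
    (fun Q' => trdeg_comp_le hT hQ Q'.2)
  intro a ha
  obtain ⟨b, rfl⟩ := Ideal.Quotient.mk_surjective a
  rw [Ideal.Quotient.eq_zero_iff_mem, mem_vI_iff]
  intro Q' h'
  have h3 := ha ⟨Q', h'⟩
  rw [factor_mk] at h3
  exact Ideal.Quotient.eq_zero_iff_mem.1 h3

/-- a relation outside a component makes the transcendence degree smaller -/
theorem trdeg_point_lt {K σ L : Type v} [Field K] [Finite σ] [Field L] [Algebra K L] {T : Set (σ → K)}
    (hT : Homog T) {Q : Ideal (MvPolynomial σ K)} (hQ : Q ∈ comps T) (β : σ → L)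
    (hβ : Q ≤ RingHom.ker (aeval (R := K) β)) :
    trdeg K (IntermediateField.adjoin K (Set.range β)) = trdeg K (MvPolynomial σ K ⧸ vI T) ↔
      RingHom.ker (aeval (R := K) β) = Q := by
  rw [trdeg_field, trdeg_T hT hQ]
  have hQp := ((mem_comps T).1 hQ).isPrime
  have hkp : (RingHom.ker (aeval (R := K) β)).IsPrime := RingHom.ker_isPrime _
  constructor
  · intro h
    by_contra hne
    have h1 : trdeg K (MvPolynomial σ K ⧸ RingHom.ker (aeval (R := K) β)) < trdeg K (MvPolynomial σ K ⧸ Q) := by
      refine trdeg_lt (Ideal.Quotient.factorₐ K hβ) (factor_surj hβ) ?_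
      intro hinj
      apply hne
      refine le_antisymm ?_ hβ
      intro p hp
      rw [injective_iff_map_eq_zero] at hinj
      refine Ideal.Quotient.eq_zero_iff_mem.1 (hinj (Ideal.Quotient.mk Q p) ?_)
      exact Ideal.Quotient.eq_zero_iff_mem.2 hp
    exact h1.ne h
  · intro h
    rw [h]

end Pool.Agent.Q57.PH
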