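import Pool.Agent.Q57.PH.Comp

/-!
# Homogeneous sets of points: all components look the same
-/

set_option autoImplicit false

open MvPolynomial Filter Topology

namespace Pool.Agent.Q57.PH

variable {K σ : Type*} [Field K]

/-- any two points are exchanged by an automorphism of degree one of the affine space which respects the closure -/
def Homog (T : Set (σ → K)) : Prop :=
  ∀ t ∈ T, ∀ t' ∈ T, ∃ τ : MvPolynomial σ K ≃ₐ[K] MvPolynomial σ K,
    (∀ p, (τ p).totalDegree ≤ p.totalDegree) ∧ (∀ p, (τ.symm p).totalDegree ≤ p.totalDegree) ∧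
    (∀ p, p ∈ vI T ↔ τ p ∈ vI T) ∧ ∀ p, eval t (τ p) = eval t' p

section

variable [Finite σ] {T : Set (σ → K)}

theorem transitive (hT : Homog T) {Q Q' : Ideal (MvPolynomial σ K)} (hQ : Q ∈ comps T) (hQ' : Q' ∈ comps T) :
    ∃ τ : MvPolynomial σ K ≃ₐ[K] MvPolynomial σ K,
      (∀ p, (τ p).totalDegree ≤ p.totalDegree) ∧ (∀ p, (τ.symm p).totalDegree ≤ p.totalDegree) ∧
      ∀ p, p ∈ Q' ↔ τ p ∈ Q := by
  obtain ⟨t, ht, h1⟩ := exists_point T Q hQ
  obtain ⟨t', ht', h1'⟩ := exists_point T Q' hQ'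
  obtain ⟨τ, hd, hd', hI, he⟩ := hT t ht t' ht'
  refine ⟨τ, hd, hd', ?_⟩
  -- the transform of `Q`
  let R : Ideal (MvPolynomial σ K) := Q.comap (τ : MvPolynomial σ K →+* MvPolynomial σ K)
  have hmem : ∀ p, p ∈ R ↔ τ p ∈ Q := fun p => Iff.rfl
  have hQm := (mem_comps T).1 hQ
  have hR : R ∈ comps T := by
    rw [mem_comps]
    have hQp := hQm.isPrime
    refine ⟨⟨Ideal.comap_isPrime _ _, fun p hp => (hmem p).2 (hQm.le ((hI p).1 hp))⟩, ?_⟩
    intro P hP hPR
    let P' : Ideal (MvPolynomial σ K) := P.comap (τ.symm : MvPolynomial σ K →+* MvPolynomial σ K)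
    have hP1 := hP.1
    have hP' : P'.IsPrime := Ideal.comap_isPrime _ _
    have hmem' : ∀ p, p ∈ P' ↔ τ.symm p ∈ P := fun p => Iff.rfl
    have hle : vI T ≤ P' := by
      intro p hp
      rw [hmem']
      refine hP.2 ((hI _).2 ?_)
      rwa [AlgEquiv.apply_symm_apply]
    have hle' : P' ≤ Q := by
      intro p hp
      have := (hmem _).1 (hPR ((hmem' p).1 hp))
      rwa [AlgEquiv.apply_symm_apply] at this
    have h2 := hQm.2 ⟨hP', hle⟩ hle'
    intro p hp
    have h3 := (hmem' _).1 (h2 ((hmem p).1 hp))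
    rwa [AlgEquiv.symm_apply_apply] at h3
  have hv : ∀ p ∈ R, eval t' p = 0 := by
    intro p hp
    rw [← he p]
    exact ((h1 Q hQ).2 rfl) _ ((hmem p).1 hp)
  have hRQ : R = Q' := (h1' R hR).1 hv
  intro p
  rw [← hRQ]
  exact hmem p

theorem hQ_eq (hT : Homog T) {Q Q' : Ideal (MvPolynomial σ K)} (h : Q ∈ comps T) (h' : Q' ∈ comps T) (n : ℕ) :
    hQ Q' n = hQ Q n := by
  obtain ⟨τ, hd, hd', hm⟩ := transitive hT h h'
  have h1 : hf K (fun i => Ideal.Quotient.mk Q (τ (X i))) n = hQ Q' n := by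
    refine hf_eq_of_ker _ _ (fun p => ?_) n
    rw [aeval_mk_eq_zero, hm p]
    have : aeval (fun i => Ideal.Quotient.mk Q (τ (X i))) p = Ideal.Quotient.mk Q (τ p) := by
      have h2 := comp_aeval_apply (X : σ → MvPolynomial σ K)
        ((Ideal.Quotient.mkₐ K Q).comp (τ : MvPolynomial σ K →ₐ[K] MvPolynomial σ K)) p
      rw [aeval_X_left_apply] at h2
      exact h2.symm
    rw [this, Ideal.Quotient.eq_zero_iff_mem]
  rw [← h1]
  have h2 : vals K (fun i => Ideal.Quotient.mk Q (τ (X i))) n = vals K (fun i => Ideal.Quotient.mk Q (X i)) n := by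
    have h3 : ∀ p, aeval (fun i => Ideal.Quotient.mk Q (τ (X i))) p = Ideal.Quotient.mk Q (τ p) := by
      intro p
      have h2 := comp_aeval_apply (X : σ → MvPolynomial σ K)
        ((Ideal.Quotient.mkₐ K Q).comp (τ : MvPolynomial σ K →ₐ[K] MvPolynomial σ K)) p
      rw [aeval_X_left_apply] at h2
      exact h2.symm
    ext c
    rw [mem_vals, mem_vals]
    constructor
    · rintro ⟨p, hp, rfl⟩
      exact ⟨τ p, (hd p).trans hp, by rw [h3, aeval_mk]⟩
    · rintro ⟨p, hp, rfl⟩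
      refine ⟨τ.symm p, (hd' p).trans hp, ?_⟩
      rw [h3, aeval_mk, AlgEquiv.apply_symm_apply]
  unfold hf
  rw [h2]
  rfl

theorem hQ_le (Q : Ideal (MvPolynomial σ K)) (h : Q ∈ comps T) (n : ℕ) : hQ Q n ≤ hf K (xT T) n := by
  refine hf_le_of_ker _ _ (fun p hp => ?_) n
  rw [aeval_mk_eq_zero]
  refine ((mem_comps T).1 h).le ?_
  rw [vI, RingHom.mem_ker, hp]

theorem upper' (hT : Homog T) {Q : Ideal (MvPolynomial σ K)} (h : Q ∈ comps T) (n : ℕ) :
    hf K (xT T) n ≤ (comps T).card * hQ Q n := by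
  refine (upper T n).trans (le_of_eq ?_)
  rw [← smul_eq_mul, ← Finset.sum_const]
  exact Finset.sum_congr rfl fun Q' h' => hQ_eq hT h h' n

theorem lower' (hT : Homog T) {Q : Ideal (MvPolynomial σ K)} (h : Q ∈ comps T) :
    ∃ e, ∀ n, (comps T).card * hQ Q n ≤ hf K (xT T) (n + e) := by
  obtain ⟨e, he⟩ := lower T
  refine ⟨e, fun n => le_trans (le_of_eq ?_) (he n)⟩
  rw [← smul_eq_mul, ← Finset.sum_const]
  exact (Finset.sum_congr rfl fun Q' h' => hQ_eq hT h h' n).symm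

end

section Limit

variable [Fintype σ] {T : Set (σ → K)}

theorem hQ_quot {Q : Ideal (MvPolynomial σ K)} (h : Q ∈ comps T) (e : ℕ) :
    Tendsto (fun n => (hQ Q (n - e) : ℝ) / hQ Q n) atTop (𝓝 1) := by
  have hQp := ((mem_comps T).1 h).isPrime
  have hpos : ∀ n, (0 : ℝ) < hQ Q n := fun n => by exact_mod_cast hf_pos K _ n
  set m : ℝ := e * Fintype.card σ with hm
  have h1 : ∀ᶠ n : ℕ in atTop, 1 - m / ((n : ℝ) - e + 1) ≤ (hQ Q (n - e) : ℝ) / hQ Q n := by
    filter_upwards [eventually_ge_atTop e] with n hn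
    have h2 := hf_shift (K := K) (fun i => Ideal.Quotient.mk Q (X i)) (n - e) e
    have h3 : n - e + e = n := by omega
    rw [h3] at h2
    have h4 : ((n - e : ℕ) : ℝ) = n - e := Nat.cast_sub hn
    rw [h4] at h2
    have h5 : (0 : ℝ) < (n : ℝ) - e + 1 := by
      have : (e : ℝ) ≤ n := by exact_mod_cast hn
      linarith
    change ((n : ℝ) - e + 1) * ((hQ Q n : ℝ) - hQ Q (n - e)) ≤ e * Fintype.card σ * hQ Q n at h2
    rw [← hm] at h2
    rw [sub_le_iff_le_add, ← sub_le_iff_le_add', le_div_iff₀ h5]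
    have h6 : (1 : ℝ) - hQ Q (n - e) / hQ Q n = ((hQ Q n : ℝ) - hQ Q (n - e)) / hQ Q n := by
      rw [sub_div, div_self (hpos n).ne']
    rw [h6, div_mul_eq_mul_div, div_le_iff₀ (hpos n)]
    linarith
  have h2 : ∀ n : ℕ, (hQ Q (n - e) : ℝ) / hQ Q n ≤ 1 := by
    intro n
    rw [div_le_one (hpos n)]
    exact_mod_cast hf_mono K _ (Nat.sub_le n e)
  have h3 : Tendsto (fun n : ℕ => 1 - m / ((n : ℝ) - e + 1)) atTop (𝓝 1) := by
    have h4 : Tendsto (fun n : ℕ => (n : ℝ) - e + 1) atTop atTop := by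
      have : Tendsto (fun n : ℕ => (n : ℝ)) atTop atTop := tendsto_natCast_atTop_atTop
      simpa [sub_eq_add_neg, add_assoc] using tendsto_atTop_add_const_right atTop (-(e : ℝ) + 1) this
    have h5 : Tendsto (fun n : ℕ => m / ((n : ℝ) - e + 1)) atTop (𝓝 0) := h4.const_div_atTop m
    simpa using h5.const_sub 1
  exact tendsto_of_tendsto_of_tendsto_of_le_of_le' h3 tendsto_const_nhds h1 (Eventually.of_forall h2)

/-- the case of the generic point of a component -/
theorem limit_generic (hT : Homog T) {Q : Ideal (MvPolynomial σ K)} (h : Q ∈ comps T) :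
    Tendsto (fun n => (hQ Q n : ℝ) / hf K (xT T) n) atTop (𝓝 (1 / (comps T).card)) := by
  have hQp := ((mem_comps T).1 h).isPrime
  have hpos : ∀ n, (0 : ℝ) < hQ Q n := fun n => by exact_mod_cast hf_pos K _ n
  have hposr : ∀ n, (0 : ℝ) < hf K (xT T) n := fun n => lt_of_lt_of_le (hpos n) (by exact_mod_cast hQ_le Q h n)
  set c : ℝ := ((comps T).card : ℝ) with hc
  have hc0 : 0 < c := by
    rw [hc]
    exact_mod_cast Finset.card_pos.2 ⟨Q, h⟩
  obtain ⟨e, he⟩ := lower' hT h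
  have h1 : ∀ n, 1 / c ≤ (hQ Q n : ℝ) / hf K (xT T) n := by
    intro n
    rw [div_le_div_iff₀ hc0 (hposr n), one_mul]
    have : (hf K (xT T) n : ℝ) ≤ (comps T).card * hQ Q n := by exact_mod_cast upper' hT h n
    linarith
  have h2 : ∀ᶠ n : ℕ in atTop, (hQ Q n : ℝ) / hf K (xT T) n ≤ (1 / c) * ((hQ Q (n - e) : ℝ) / hQ Q n)⁻¹ := by
    filter_upwards [eventually_ge_atTop e] with n hn
    have h3 := he (n - e)
    have h4 : n - e + e = n := by omega
    rw [h4] at h3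
    have h5 : c * hQ Q (n - e) ≤ hf K (xT T) n := by rw [hc]; exact_mod_cast h3
    rw [inv_div, div_mul_div_comm, one_mul]
    exact div_le_div_of_nonneg_left (hpos n).le (mul_pos hc0 (hpos _)) h5
  have h3 : Tendsto (fun n : ℕ => (1 / c) * ((hQ Q (n - e) : ℝ) / hQ Q n)⁻¹) atTop (𝓝 (1 / c)) := by
    have := (hQ_quot h e).inv₀ one_ne_zero
    simpa using this.const_mul (1 / c)
  exact tendsto_of_tendsto_of_tendsto_of_le_of_le' tendsto_const_nhds h3 (Eventually.of_forall h1) h2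

end Limit

section Special

variable [Fintype σ] {T : Set (σ → K)} {L : Type*} [CommRing L] [Algebra K L]

/-- the case of a special point: the rate `1 / n` -/
theorem rate_special {β : σ → L} {Q : Ideal (MvPolynomial σ K)} (h : Q ∈ comps T)
    (hβ : ∀ p ∈ Q, aeval β p = 0) (a : MvPolynomial σ K) (ha : a ∉ Q) (ha' : aeval β a = 0) :
    ∃ C : ℝ, 0 ≤ C ∧ ∀ n : ℕ, 1 ≤ n → (hf K β n : ℝ) ≤ C / n * hf K (xT T) n := by
  have hQm := (mem_comps T).1 h
  have hQp := hQm.isPrime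
  set e : ℕ := a.totalDegree with he
  set E : ℝ := (e : ℝ) with hE
  set m : ℝ := (Fintype.card σ : ℝ) with hm
  have hE0 : 0 ≤ E := Nat.cast_nonneg _
  have hm0 : 0 ≤ m := Nat.cast_nonneg _
  refine ⟨(E + 1) * (E * m) + E, by positivity, fun n hn => ?_⟩
  have hn0 : (0 : ℝ) < n := by exact_mod_cast hn
  have h1 : (hQ Q n : ℝ) ≤ hf K (xT T) n := by exact_mod_cast hQ_le Q h n
  have h2 : (hf K β n : ℝ) ≤ hQ Q n := by
    have := hf_le_of_ker (K := K) (fun i => Ideal.Quotient.mk Q (X i)) β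
      (fun p hp => hβ p ((aeval_mk_eq_zero Q p).1 hp)) n
    exact_mod_cast this
  have hr0 : (0 : ℝ) ≤ hf K (xT T) n := Nat.cast_nonneg _
  rw [div_mul_eq_mul_div, le_div_iff₀ hn0]
  by_cases hne : e ≤ n
  · have h3 := hf_rate (K := K) (fun i => Ideal.Quotient.mk Q (X i)) β
      (fun p hp => hβ p ((aeval_mk_eq_zero Q p).1 hp)) a
      (fun h => ha ((aeval_mk_eq_zero Q a).1 h)) ha' n hne
    have h4 : ((n : ℝ) - E + 1) * hf K β n ≤ E * m * hQ Q n := h3
    have h5 : (n : ℝ) ≤ (E + 1) * ((n : ℝ) - E + 1) := by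
      have : E ≤ n := by rw [hE]; exact_mod_cast hne
      nlinarith
    have h6 : (hf K β n : ℝ) * n ≤ (E + 1) * (((n : ℝ) - E + 1) * hf K β n) := by
      have : (0 : ℝ) ≤ hf K β n := Nat.cast_nonneg _
      nlinarith
    have h7 : (E + 1) * (((n : ℝ) - E + 1) * hf K β n) ≤ (E + 1) * (E * m * hf K (xT T) n) := by
      refine mul_le_mul_of_nonneg_left (h4.trans ?_) (by linarith)
      exact mul_le_mul_of_nonneg_left h1 (by positivity)
    nlinarith [mul_nonneg hE0 hr0]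
  · have h3 : (n : ℝ) ≤ E := by rw [hE]; exact_mod_cast (by omega : n ≤ e)
    have h4 : (hf K β n : ℝ) * n ≤ hf K (xT T) n * E :=
      mul_le_mul (h2.trans h1) h3 hn0.le hr0
    nlinarith [mul_nonneg (mul_nonneg (by linarith : (0 : ℝ) ≤ E + 1) (mul_nonneg hE0 hm0)) hr0]

end Special

end Pool.Agent.Q57.PH
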