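import Pool.Agent.Q57.PH.Std

/-!
# The spaces of the values of the polynomials of bounded degree
-/

set_option autoImplicit false

open MvPolynomial Finsupp

namespace Pool.Agent.Q57.PH

variable (K : Type*) {A B σ : Type*} [Field K] [CommRing A] [Algebra K A] [CommRing B] [Algebra K B]

/-- the values at `x` of the polynomials over `K` of total degree at most `n` -/
noncomputable def vals (x : σ → A) (n : ℕ) : Submodule K A :=
  (restrictTotalDegree σ K n).map (aeval (R := K) x).toLinearMap

theorem mem_vals {x : σ → A} {n : ℕ} {a : A} :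
    a ∈ vals K x n ↔ ∃ p : MvPolynomial σ K, p.totalDegree ≤ n ∧ aeval x p = a := by
  simp [vals, mem_restrictTotalDegree]

theorem vals_mono (x : σ → A) {n k : ℕ} (h : n ≤ k) : vals K x n ≤ vals K x k := by
  intro a ha
  rw [mem_vals] at ha ⊢
  obtain ⟨p, hp, rfl⟩ := ha
  exact ⟨p, hp.trans h, rfl⟩

instance [Finite σ] (x : σ → A) (n : ℕ) : Module.Finite K (vals K x n) := by
  unfold vals
  infer_instance

theorem vals_map (f : A →ₐ[K] B) (x : σ → A) (n : ℕ) :
    vals K (fun i => f (x i)) n = (vals K x n).map f.toLinearMap := by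
  ext b
  constructor
  · intro hb
    obtain ⟨p, hp, rfl⟩ := (mem_vals K).1 hb
    refine ⟨aeval x p, (mem_vals K).2 ⟨p, hp, rfl⟩, ?_⟩
    exact comp_aeval_apply x f p
  · rintro ⟨a, ha, rfl⟩
    obtain ⟨p, hp, rfl⟩ := (mem_vals K).1 ha
    refine (mem_vals K).2 ⟨p, hp, ?_⟩
    exact (comp_aeval_apply x f p).symm

theorem vals_equiv {τ : Type*} (e : τ ≃ σ) (x : σ → A) (n : ℕ) :
    vals K (fun i => x (e i)) n = vals K x n := by
  ext a
  constructor
  · intro ha
    obtain ⟨p, hp, rfl⟩ := (mem_vals K).1 ha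
    refine (mem_vals K).2 ⟨rename e p, (totalDegree_rename_le e p).trans hp, ?_⟩
    rw [aeval_rename]
    rfl
  · intro ha
    obtain ⟨p, hp, rfl⟩ := (mem_vals K).1 ha
    refine (mem_vals K).2 ⟨rename e.symm p, (totalDegree_rename_le _ p).trans hp, ?_⟩
    rw [aeval_rename]
    congr 1
    congr 1
    funext i
    simp

theorem vals_eq_span (x : σ → A) (n : ℕ) :
    vals K x n = Submodule.span K ((fun u : σ →₀ ℕ => aeval x (monomial u (1 : K))) '' {u | u.degree ≤ n}) := by
  refine le_antisymm ?_ (Submodule.span_le.2 ?_)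
  · intro a ha
    obtain ⟨p, hp, rfl⟩ := (mem_vals K).1 ha
    rw [p.as_sum, map_sum]
    refine Submodule.sum_mem _ fun u hu => ?_
    have : aeval x (monomial u (coeff u p)) = coeff u p • aeval x (monomial u (1 : K)) := by
      rw [← map_smul, smul_monomial, smul_eq_mul, mul_one]
    rw [this]
    refine Submodule.smul_mem _ _ (Submodule.subset_span ⟨u, ?_, rfl⟩)
    exact (le_totalDegree hu).trans hp
  · rintro _ ⟨u, hu, rfl⟩
    exact (mem_vals K).2 ⟨monomial u 1, (totalDegree_monomial_le u 1).trans hu, rfl⟩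

section Growth

variable {m : ℕ}

open scoped MonomialOrder

theorem growth_fin (x : Fin m → A) (n : ℕ) :
    (n + 1) * Module.finrank K (vals K x (n + 1)) ≤ (n + 1 + m) * Module.finrank K (vals K x n) := by
  classical
  let O : MonomialOrder (Fin m) := MonomialOrder.degLex
  let v : O.syn → A := fun s => aeval x (monomial (O.toSyn.symm s) (1 : K))
  have hdeg : ∀ a b : O.syn, a ≤ b → (O.toSyn.symm a).degree ≤ (O.toSyn.symm b).degree := by
    intro a b h
    exact DegLex.monotone_degree h
  have hlow : ∀ k, IsLowerSet {s : O.syn | (O.toSyn.symm s).degree ≤ k} := fun k a b h ha => (hdeg b a h).trans ha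
  have hfin : ∀ k, {s : O.syn | (O.toSyn.symm s).degree ≤ k}.Finite := by
    intro k
    have h1 : {s : O.syn | (O.toSyn.symm s).degree ≤ k} = O.toSyn '' {u | u.degree ≤ k} := by
      ext s
      constructor
      · intro hs
        exact ⟨O.toSyn.symm s, hs, by simp⟩
      · rintro ⟨u, hu, rfl⟩
        simpa using hu
    rw [h1]
    exact (Finsupp.finite_of_degree_le k).image _
  set M : Set (Fin m →₀ ℕ) := {u | O.toSyn u ∈ std K v} with hMdef
  have hcard : ∀ k, Module.finrank K (vals K x k) = ((box m k).filter (· ∈ M)).card := by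
    intro k
    have h1 : vals K x k = Submodule.span K (v '' {s : O.syn | (O.toSyn.symm s).degree ≤ k}) := by
      rw [vals_eq_span]
      refine congrArg _ ?_
      ext a
      constructor
      · rintro ⟨u, hu, rfl⟩
        exact ⟨O.toSyn u, by simpa using hu, by simp only [v, AddEquiv.symm_apply_apply]⟩
      · rintro ⟨s, hs, rfl⟩
        exact ⟨O.toSyn.symm s, hs, rfl⟩
    rw [h1, finrank_lower v _ (hlow k) (hfin k)]
    have h2 : std K v ∩ {s : O.syn | (O.toSyn.symm s).degree ≤ k} =
        O.toSyn '' (((box m k).filter (· ∈ M) : Finset (Fin m →₀ ℕ)) : Set (Fin m →₀ ℕ)) := by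
      ext s
      constructor
      · rintro ⟨h1, h2⟩
        refine ⟨O.toSyn.symm s, ?_, by simp⟩
        simp only [Finset.coe_filter, Set.mem_ofPred_eq, mem_box]
        refine ⟨h2, ?_⟩
        rw [hMdef]
        simpa using h1
      · rintro ⟨u, hu, rfl⟩
        simp only [Finset.coe_filter, Set.mem_ofPred_eq, mem_box] at hu
        refine ⟨hu.2, ?_⟩
        simpa using hu.1
    rw [h2, Set.ncard_image_of_injective _ O.toSyn.injective, Set.ncard_coe_finset]
  rw [hcard, hcard]
  refine count M ?_ n
  intro u hu i hi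
  by_contra hc
  rw [hMdef] at hu hc
  simp only [Set.mem_ofPred_eq, std, not_not] at hu hc
  apply hu
  set w := u - Finsupp.single i 1 with hw
  have huw : u = w + Finsupp.single i 1 := by
    rw [hw, tsub_add_cancel_of_le]
    exact Finsupp.single_le_iff.2 (Nat.one_le_iff_ne_zero.2 hi)
  have hmul : ∀ z : O.syn, v (z + O.toSyn (Finsupp.single i 1)) = x i * v z := by
    intro z
    simp only [v, map_add, AddEquiv.symm_apply_apply]
    rw [show monomial (O.toSyn.symm z + Finsupp.single i 1) (1 : K) = X i * monomial (O.toSyn.symm z) 1 by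
      rw [X, monomial_mul, one_mul, add_comm], map_mul, aeval_X]
  have h1 : v (O.toSyn u) = x i * v (O.toSyn w) := by
    rw [huw, map_add, hmul]
  rw [h1]
  have h2 : Submodule.map (LinearMap.mulLeft K (x i)) (Submodule.span K (v '' Set.Iio (O.toSyn w))) ≤
      Submodule.span K (v '' Set.Iio (O.toSyn u)) := by
    rw [Submodule.map_span, Submodule.span_le]
    rintro _ ⟨_, ⟨z, hz, rfl⟩, rfl⟩
    refine Submodule.subset_span ⟨z + O.toSyn (Finsupp.single i 1), ?_, ?_⟩
    · rw [huw, map_add]
      have hz' : z < O.toSyn w := hz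
      exact (add_lt_add_iff_right _).2 hz'
    · rw [hmul]
      rfl
  exact h2 ⟨_, hc, rfl⟩

/-- `(n + 1) h (n + 1) ≤ (n + 1 + m) h n` -/
theorem growth [Fintype σ] (x : σ → A) (n : ℕ) :
    (n + 1) * Module.finrank K (vals K x (n + 1)) ≤
      (n + 1 + Fintype.card σ) * Module.finrank K (vals K x n) := by
  rw [← vals_equiv K (Fintype.equivFin σ).symm x, ← vals_equiv K (Fintype.equivFin σ).symm x]
  exact growth_fin K _ n

end Growth

end Pool.Agent.Q57.PH
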